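import Pool.Agent.R425.T.Sel
import Pool.Agent.R901.EC.Fields

/-!
# The subgroup of the even characters that split the bad primes
-/

set_option autoImplicit false
set_option linter.all false

open NumberField IsDedekindDomain

namespace Pool.Agent.R425.T

open Pool.Agent.Y702.G (base pts sh)
open Pool.Agent.Y18.LP (Fam sp cvl mem_sp HOk)
open Pool.Agent.R901.EC (badp ca cb odd_pts' reps cvl_mul' cvl_pow')

open scoped Classical

lemma mem_badp {m : ℕ} {W : Fin m → WeierstrassCurve ℤ} (hΔ : ∀ i, (W i).Δ ≠ 0) (p : ℕ) :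
    p ∈ badp W ↔ p.Prime ∧ ∃ i, (p : ℤ) ∣ 2 * (W i).Δ := by
  have hD0' : (∏ i, (2 * (W i).Δ)) ≠ 0 :=
    Finset.prod_ne_zero_iff.2 fun i _ => mul_ne_zero (by norm_num) (hΔ i)
  unfold badp
  rw [Nat.mem_primeFactors_of_ne_zero (by simpa using hD0'), ← Int.natCast_dvd]
  constructor
  · rintro ⟨h1, h2⟩
    refine ⟨h1, ?_⟩
    rw [(Nat.prime_iff_prime_int.1 h1).dvd_finsetProd_iff] at h2
    obtain ⟨i, -, h3⟩ := h2
    exact ⟨i, h3⟩
  · rintro ⟨h1, i, h2⟩
    exact ⟨h1, h2.trans (Finset.dvd_prod_of_mem (fun i => 2 * (W i).Δ) (Finset.mem_univ i))⟩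

/-- the value at the index `p`; the index `0` stands for `-1` -/
noncomputable def chv (p : ℕ) (c : Fam) : ℂ := if p = 0 then par c else cvl c p

/-- the even characters that split the bad primes -/
theorem split_curves {m : ℕ} {W : Fin m → WeierstrassCurve ℤ} (hΔ : ∀ i, (W i).Δ ≠ 0) (n : ℕ)
    (H : Subgroup Fam) (hH : HOk m (fun i => ca (W i)) (fun i => cb (W i)) 2 n H) :
    ∃ H' : Subgroup Fam, H' ≤ H ∧ (∀ c ∈ H', (∀ p ∈ badp W, cvl c p = 1) ∧ par c = 1) ∧
      ∃ R : Finset Fam, R.card ≤ (2 ^ n) ^ ((badp W).card + 1) ∧ (∀ r ∈ R, r ∈ H) ∧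
        ∀ c ∈ H, ∃ r ∈ R, c * r ∈ H' := by
  have h0 : (0 : ℕ) ∉ badp W := by
    intro h
    exact Nat.not_prime_zero ((mem_badp hΔ 0).1 h).1
  have hZ : ∀ p ∈ badp W, ∀ c ∈ H, ∀ q, c q ≠ 1 → p.Coprime q := by
    intro p hp c hc q hq
    obtain ⟨hpp, i, hpi⟩ := (mem_badp hΔ p).1 hp
    obtain ⟨hqp, hqa⟩ := hH.adm c hc q hq
    rw [Nat.coprime_primes hpp hqp]
    rintro rfl
    exact (odd_pts' (hqa i).1 (hqa i).2).1 hpi
  obtain ⟨H', h1, R, h2, h3, h4⟩ := reps (G := Fam) (insert 0 (badp W)) chv (pow_pos two_pos n) H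
    (by
      intro p hp c hc c' hc'
      unfold chv
      by_cases hp0 : p = 0
      · rw [if_pos hp0, if_pos hp0, if_pos hp0]
        exact par_mul (hH.fin c hc) (hH.fin c' hc')
      · rw [if_neg hp0, if_neg hp0, if_neg hp0]
        have hp' : p ∈ badp W := (Finset.mem_insert.1 hp).resolve_left hp0
        refine cvl_mul' (hH.fin c hc) (hH.fin c' hc') fun q hq => ?_
        rcases hq with h | h
        · exact hZ p hp' c hc q h
        · exact hZ p hp' c' hc' q h)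
    (by
      intro p hp c hc
      unfold chv
      by_cases hp0 : p = 0
      · rw [if_pos hp0]
        exact par_pow (hH.pow c hc)
      · rw [if_neg hp0]
        have hp' : p ∈ badp W := (Finset.mem_insert.1 hp).resolve_left hp0
        exact cvl_pow' (hH.fin c hc) (hH.pow c hc) (hZ p hp' c hc))
  refine ⟨H', fun c hc => ((h1 c).1 hc).1, fun c hc => ⟨fun p hp => ?_, ?_⟩, R, ?_, h3, h4⟩
  · have h5 := ((h1 c).1 hc).2 p (Finset.mem_insert_of_mem hp)
    unfold chv at h5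
    rwa [if_neg (fun h : p = 0 => h0 (by rw [← h]; exact hp))] at h5
  · have h5 := ((h1 c).1 hc).2 0 (Finset.mem_insert_self _ _)
    unfold chv at h5
    rwa [if_pos rfl] at h5
  · rw [← Finset.card_insert_of_notMem h0]
    exact h2

/-- the 2-Selmer groups over the fields of the group -/
theorem sel_curves {m : ℕ} {W : Fin m → WeierstrassCurve ℤ} (hΔ : ∀ i, (W i).Δ ≠ 0)
    (hS : ∀ i, Finite (base (W i) ℚ).toAffine.Point ∧ Odd (Nat.card (base (W i) ℚ).toAffine.Point) ∧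
      ∀ s : Pool.Agent.TH841.NF.D.Sha (base (W i) ℚ), 2 • s = 0 → s = 0) (n : ℕ)
    (H : Subgroup Fam) (hH : HOk m (fun i => ca (W i)) (fun i => cb (W i)) 2 n H)
    (hspl : ∀ c ∈ H, (∀ p ∈ badp W, cvl c p = 1) ∧ par c = 1)
    (F : IntermediateField ℚ ℂ) [NumberField F]
    (hF : F ≤ IntermediateField.adjoin ℚ {x : ℂ | ∃ c ∈ H,
      x = Pool.Agent.Y18.LP.eta c (Complex.exp (2 * Real.pi * Complex.I /
        (Pool.Agent.Y18.BSD.dd (sp c) : ℕ)))})
    (i : Fin m) : (∀ s : Pool.Agent.TH841.NF.D.Sha (base (W i) F), 2 • s = 0 → s = 0) ∧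
      Finite (base (W i) F).toAffine.Point :=
  core_sel (W i) (hΔ i) (hS i).2.2 (hS i).1 (hS i).2.1 H n hH.pow hH.fin
    (fun c hc q hq => ⟨(hH.adm c hc q hq).1, odd_pts' ((hH.adm c hc q hq).2 i).1
      ((hH.adm c hc q hq).2 i).2⟩)
    (fun c hc p hp hpd => (hspl c hc).1 p ((mem_badp hΔ p).2 ⟨hp, i, hpd⟩))
    (fun _ c hc => (hspl c hc).2) F hF

end Pool.Agent.R425.T
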