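import Pool.Agent.R425.P.Al
import Pool.Agent.R901.EC.Tower
import Pool.Agent.Y702.L.Pl

/-!
# Trivial 2-Selmer groups over the fields of groups of characters: discriminants of either sign
-/

set_option autoImplicit false
set_option linter.all false

open NumberField IsDedekindDomain
open Polynomial (cyclotomic nthRootsFinset mem_nthRootsFinset card_nthRoots)

namespace Pool.Agent.R425.T

open Pool.Agent.Y702.G (base pts sh SelTriv)
open Pool.Agent.Y18.LP (Fam sp cvl UU XX XX_nat XX_pow XX_mul eta_act sp_sub mem_sp dvd_dd)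
open Pool.Agent.Y18.BSD (dd_ne_zero dd_dvd)
open Pool.Agent.R901.EC (fixes deg_pow twk twk_finite badp)
open IsCyclotomicExtension.Rat (galEquivZMod)

open scoped Classical

/-- **Galois 2-extensions.** -/
theorem sel_abs (W : WeierstrassCurve ℤ) (hΔ : W.Δ ≠ 0)
    (hsha : ∀ s : Pool.Agent.TH841.NF.D.Sha (base W ℚ), 2 • s = 0 → s = 0)
    (hfin : Finite (base W ℚ).toAffine.Point) (hcard : Odd (Nat.card (base W ℚ).toAffine.Point))
    (K : Type) [Field K] [NumberField K] [IsGalois ℚ K] (n m : ℕ) (hn : Module.finrank ℚ K = 2 ^ n)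
    (hm : ∀ l : ℕ, l.Prime → l ∣ m → ¬ (l : ℤ) ∣ 2 * W.Δ ∧ Odd ((l : ℤ) - pts W (ZMod l)))
    (hunr : ∀ (p : ℕ), p.Prime → ¬ p ∣ m → ∀ v : HeightOneSpectrum (𝓞 K), (p : 𝓞 K) ∈ v.asIdeal →
      v.valuation K (p : K) = WithZero.exp (-1 : ℤ))
    (hdeg : ∀ v : HeightOneSpectrum (𝓞 K), ((2 * W.Δ : ℤ) : 𝓞 K) ∈ v.asIdeal →
      (Ideal.absNorm v.asIdeal).Prime)
    (hre : 0 < W.Δ → ∀ v : InfinitePlace K, v.IsReal) :
    (∀ s : Pool.Agent.TH841.NF.D.Sha (base W K), 2 • s = 0 → s = 0) ∧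
      Finite (base W K).toAffine.Point := by
  have hnr := Pool.Agent.Y702.G.no_root_of_odd W hΔ hfin hcard
  rcases lt_or_gt_of_ne hΔ with hneg | hpos
  · have hsel := Pool.Agent.Y702.G.sel_main2 Pool.Agent.Y93.G.s_inv Pool.Agent.Y141.G2.s_kump
      Pool.Agent.Y852.GS.s_spl Pool.Agent.Y76.GPar.s_par
      (Pool.Agent.Y710.CV.s_conv Pool.Agent.Y46.G2.s_emb)
      (Pool.Agent.Y67.LZ.s_lz Pool.Agent.Y500.G.s_fl) Pool.Agent.Y125.DQ.s_descq
      W hneg hnr hsha hfin hcard K n m hn hm hunr hdeg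
    obtain ⟨h1, h2, -⟩ := Pool.Agent.Y355.G.s_desc W hΔ K hsel
      (Pool.Agent.Y702.G.no_root _ hnr K n hn)
    exact ⟨h1, h2⟩
  · have hsQ := Pool.Agent.R425.G.selT_of W ℚ hΔ hnr hfin hsha
    have hSK := Pool.Agent.R425.P.selT_up W hΔ hnr hsQ K (hre hpos) n m hn hm hunr hdeg
    exact ⟨fun s hs => Pool.Agent.R425.G.sha_two W hΔ hSK s hs,
      Pool.Agent.R425.P.finite_of_selT W hΔ hSK⟩

/-- the residue degree one condition under an isomorphism -/
theorem deg_iso {F' F : Type} [Field F'] [NumberField F'] [Field F] [NumberField F] (e : F' ≃+* F)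
    (D : ℤ)
    (h : ∀ v : HeightOneSpectrum (𝓞 F'), ((D : ℤ) : 𝓞 F') ∈ v.asIdeal →
      (Ideal.absNorm v.asIdeal).Prime) (v : HeightOneSpectrum (𝓞 F))
    (hv : ((D : ℤ) : 𝓞 F) ∈ v.asIdeal) : (Ideal.absNorm v.asIdeal).Prime := by
  let e0 : 𝓞 F' ≃+* 𝓞 F := RingOfIntegers.mapRingEquiv e
  let v' : HeightOneSpectrum (𝓞 F') :=
    ⟨v.asIdeal.comap e0, Ideal.comap_isPrime e0 v.asIdeal, by
      intro h0
      apply v.ne_bot
      rw [← Ideal.map_comap_of_surjective (e0 : 𝓞 F' →+* 𝓞 F) e0.surjective v.asIdeal]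
      have h1 : Ideal.comap (e0 : 𝓞 F' →+* 𝓞 F) v.asIdeal = ⊥ := h0
      rw [h1, Ideal.map_bot]⟩
  have h1 : ((D : ℤ) : 𝓞 F') ∈ v'.asIdeal := by
    show e0 ((D : ℤ) : 𝓞 F') ∈ v.asIdeal
    rw [map_intCast]
    exact hv
  have h2 := h v' h1
  have h3 : Ideal.absNorm v'.asIdeal = Ideal.absNorm v.asIdeal := by
    rw [Ideal.absNorm_apply, Ideal.absNorm_apply, Submodule.cardQuot_apply,
      Submodule.cardQuot_apply]
    refine Nat.card_congr (Ideal.quotientEquiv v'.asIdeal v.asIdeal e0 ?_).toEquiv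
    show v.asIdeal = Ideal.map (e0 : 𝓞 F' →+* 𝓞 F) (Ideal.comap (e0 : 𝓞 F' →+* 𝓞 F) v.asIdeal)
    rw [Ideal.map_comap_of_surjective (e0 : 𝓞 F' →+* 𝓞 F) e0.surjective]
  rwa [h3] at h2

/-- the value at `-1` of the character of a family -/
noncomputable def par (c : Fam) : ℂ := ∏ q ∈ sp c, ((c q (-1) : ℂˣ) : ℂ)

lemma XX_neg_one (c : Fam) {n : ℕ} (h : ∀ q ∈ sp c, q ∣ n) :
    ((XX c (sp c) n (-1) : ℂˣ) : ℂ) = par c := by
  rw [Pool.Agent.Y18.LP.XX_apply, ← Units.coeHom_apply, map_prod]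
  unfold par
  refine Finset.prod_congr rfl fun q hq => ?_
  rw [Units.coeHom_apply]
  unfold Pool.Agent.Y18.LP.loc
  rw [dif_pos (h q hq), MonoidHom.comp_apply]
  have h1 : ZMod.unitsMap (h q hq) (-1) = -1 := by
    apply Units.ext
    rw [ZMod.unitsMap_val, ← ZMod.castHom_apply (h := h q hq) (R := ZMod q), Units.val_neg,
      Units.val_one, map_neg, map_one, Units.val_neg, Units.val_one]
  rw [h1]

lemma par_eq (c : Fam) {S : Finset ℕ} (hfin : {q | c q ≠ 1}.Finite) (hS : sp c ⊆ S) :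
    par c = ∏ q ∈ S, ((c q (-1) : ℂˣ) : ℂ) := by
  unfold par
  refine Finset.prod_subset hS fun q hq hn => ?_
  have h1 : c q = 1 := by
    by_contra h
    exact hn ((mem_sp hfin q).2 h)
  rw [h1]
  rfl

lemma par_mul {c c' : Fam} (hc : {q | c q ≠ 1}.Finite) (hc' : {q | c' q ≠ 1}.Finite) :
    par (c * c') = par c * par c' := by
  have hcc : {q | (c * c') q ≠ 1}.Finite := by
    refine (hc.union hc').subset fun q hq => ?_
    by_contra h
    simp only [Set.mem_union, Set.mem_setOf_eq, not_or, not_not] at h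
    apply hq
    show c q * c' q = 1
    rw [h.1, h.2]
    exact one_mul (1 : (ZMod q)ˣ →* ℂˣ)
  have hsub : sp (c * c') ⊆ sp c ∪ sp c' := by
    intro q hq
    rw [mem_sp hcc] at hq
    rw [Finset.mem_union, mem_sp hc, mem_sp hc']
    by_contra h
    rw [not_or, not_not, not_not] at h
    apply hq
    show c q * c' q = 1
    rw [h.1, h.2]
    exact one_mul (1 : (ZMod q)ˣ →* ℂˣ)
  rw [par_eq _ hcc hsub, par_eq c hc Finset.subset_union_left,
    par_eq c' hc' Finset.subset_union_right, ← Finset.prod_mul_distrib]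
  refine Finset.prod_congr rfl fun q hq => ?_
  show ((c q * c' q) _ : ℂˣ).val = _
  rw [MonoidHom.mul_apply, Units.val_mul]

lemma par_pow {c : Fam} {e : ℕ} (h : c ^ e = 1) : par c ^ e = 1 := by
  unfold par
  rw [← Finset.prod_pow]
  refine Finset.prod_eq_one fun q hq => ?_
  have h1 : (c q) ^ e = 1 := by
    have := congrFun h q
    simpa using this
  have h2 := DFunLike.congr_fun h1 (-1)
  rw [MonoidHom.pow_apply] at h2
  have h3 := congrArg Units.val h2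
  rw [Units.val_pow_eq_pow_val] at h3
  exact h3

/-- **The 2-Selmer group over the fields of a group of characters.** -/
theorem core_sel (W : WeierstrassCurve ℤ) (hΔ : W.Δ ≠ 0)
    (hsha : ∀ s : Pool.Agent.TH841.NF.D.Sha (base W ℚ), 2 • s = 0 → s = 0)
    (hfinQ : Finite (base W ℚ).toAffine.Point) (hcard : Odd (Nat.card (base W ℚ).toAffine.Point))
    (H0 : Subgroup Fam) (k : ℕ) (hpow : ∀ c ∈ H0, c ^ (2 ^ k) = 1)
    (hfin : ∀ c ∈ H0, {q | c q ≠ 1}.Finite)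
    (hadm : ∀ c ∈ H0, ∀ q, c q ≠ 1 → q.Prime ∧ ¬ (q : ℤ) ∣ 2 * W.Δ ∧
      Odd ((q : ℤ) - pts W (ZMod q)))
    (hspl : ∀ c ∈ H0, ∀ p : ℕ, p.Prime → (p : ℤ) ∣ 2 * W.Δ → cvl c p = 1)
    (hpar : 0 < W.Δ → ∀ c ∈ H0, par c = 1)
    (F : IntermediateField ℚ ℂ) [NumberField F]
    (hF : F ≤ IntermediateField.adjoin ℚ {x : ℂ | ∃ c ∈ H0,
      x = Pool.Agent.Y18.LP.eta c (Complex.exp (2 * Real.pi * Complex.I / (Pool.Agent.Y18.BSD.dd (sp c) : ℕ)))}) :
    (∀ s : Pool.Agent.TH841.NF.D.Sha (base W F), 2 • s = 0 → s = 0) ∧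
      Finite (base W F).toAffine.Point := by
  obtain ⟨Z0, hZ1, hZ2⟩ := Pool.Agent.Y18.NF.finite_gen F _ hF
  have h1 : ∀ z : ℂ, ∃ c : Fam, c ∈ H0 ∧ (z ∈ Z0 →
      z = Pool.Agent.Y18.LP.eta c (Complex.exp (2 * Real.pi * Complex.I / (Pool.Agent.Y18.BSD.dd (sp c) : ℕ)))) := by
    intro z
    by_cases hz : z ∈ Z0
    · obtain ⟨c, hc, h⟩ := hZ1 hz
      exact ⟨c, hc, fun _ => h⟩
    · exact ⟨1, H0.one_mem, fun h => absurd h hz⟩
  choose c hcH hc using h1
  set S0 : Finset ℕ := Z0.biUnion fun z => sp (c z) with hS0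
  have hS0X : ∀ q ∈ S0, q.Prime ∧ ¬ (q : ℤ) ∣ 2 * W.Δ ∧ Odd ((q : ℤ) - pts W (ZMod q)) := by
    intro q hq
    rw [hS0, Finset.mem_biUnion] at hq
    obtain ⟨z, hz, hqz⟩ := hq
    exact hadm _ (hcH z) q ((mem_sp (hfin _ (hcH z)) q).1 hqz)
  set n : ℕ := Pool.Agent.Y18.BSD.dd S0 with hn
  have hn0 : NeZero n := ⟨dd_ne_zero fun q hq => (hS0X q hq).1⟩
  let L := CyclotomicField n ℚ
  have hcyc : IsCyclotomicExtension {n} ℚ L := CyclotomicField.isCyclotomicExtension n ℚ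
  let φ : L →ₐ[ℚ] ℂ := IsAlgClosed.lift
  have hζ := IsCyclotomicExtension.zeta_spec n ℚ L
  have hζφ : IsPrimitiveRoot (φ (IsCyclotomicExtension.zeta n ℚ L)) n :=
    hζ.map_of_injective φ.toRingHom.injective
  have hroot : ∀ y : ℂ, y ^ n = 1 → ∃ z : L, φ z = y ∧ z ^ n = 1 := by
    intro y hy
    obtain ⟨i, -, hi⟩ := hζφ.eq_pow_of_pow_eq_one hy
    refine ⟨IsCyclotomicExtension.zeta n ℚ L ^ i, ?_, ?_⟩
    · rw [map_pow, hi]
    · rw [← pow_mul, mul_comm, pow_mul, hζ.pow_eq_one, one_pow]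
  set ZL : Set L := {x : L | ∃ c ∈ H0, (∀ q, q ∉ S0 → c q = 1) ∧
      ∃ z : L, z ^ Pool.Agent.Y18.BSD.dd (sp c) = 1 ∧ x = Pool.Agent.Y18.LP.eta c z} with hZL
  have hadj : F ≤ (IntermediateField.adjoin ℚ ZL).map φ := by
    refine hZ2.trans ?_
    rw [IntermediateField.adjoin_map]
    refine IntermediateField.adjoin.mono ℚ _ _ ?_
    intro z hz
    have hz' : z ∈ Z0 := hz
    have hsub : sp (c z) ⊆ S0 := Finset.subset_biUnion_of_mem (fun z => sp (c z)) hz'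
    have hM0 : Pool.Agent.Y18.BSD.dd (sp (c z)) ≠ 0 := dd_ne_zero fun q hq => (hS0X q (hsub hq)).1
    set M := Pool.Agent.Y18.BSD.dd (sp (c z)) with hM
    set y : ℂ := Complex.exp (2 * Real.pi * Complex.I / (M : ℕ)) with hy
    have hyM : y ^ M = 1 := (Complex.isPrimitiveRoot_exp M hM0).pow_eq_one
    obtain ⟨k, hk⟩ : M ∣ n := dd_dvd hsub
    have hyn : y ^ n = 1 := by rw [hk, pow_mul, hyM, one_pow]
    obtain ⟨x, hx1, hx2⟩ := hroot y hyn
    refine ⟨Pool.Agent.Y18.LP.eta (c z) x, ⟨c z, hcH z, fun q hq => ?_, x, ?_, rfl⟩, ?_⟩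
    · by_contra h
      exact hq (hsub ((mem_sp (hfin _ (hcH z)) q).2 h))
    · apply φ.toRingHom.injective
      show φ _ = φ _
      rw [map_pow, map_one, hx1]
      exact hyM
    · show φ (Pool.Agent.Y18.LP.eta (c z) x) = z
      refine Eq.trans ?_ (hc z hz').symm
      unfold Pool.Agent.Y18.LP.eta
      rw [map_sum]
      refine Finset.sum_congr rfl fun u _ => ?_
      rw [map_pow, hx1]
  set F' : IntermediateField ℚ L := F.comap φ with hF'
  have hF'le : F' ≤ IntermediateField.adjoin ℚ ZL := by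
    intro x hx
    have h2 : φ x ∈ F := hx
    obtain ⟨y, hy, hyx⟩ := hadj h2
    have h3 : y = x := φ.toRingHom.injective hyx
    rw [← h3]
    exact hy
  have hSp : ∀ q ∈ S0, q.Prime := fun q hq => (hS0X q hq).1
  obtain ⟨j, hj⟩ := deg_pow n L F' k (fun σ => fixes n L H0 S0 hSp dvd_rfl F' hF'le _
    (fun c hc _ => by
      have h2 : galEquivZMod n L (σ ^ (2 ^ k)) = (galEquivZMod n L σ) ^ (2 ^ k) := map_pow _ _ _
      rw [h2, map_pow, XX_pow (hpow c hc)]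
      rfl))
  have hm : ∀ l : ℕ, l.Prime → l ∣ n → ¬ (l : ℤ) ∣ 2 * W.Δ ∧ Odd ((l : ℤ) - pts W (ZMod l)) := by
    intro l hl hlm
    have h1 : ∃ q ∈ S0, l ∣ q := (Prime.dvd_finset_prod_iff (Nat.prime_iff.1 hl) _).1 hlm
    obtain ⟨q, hq, h2⟩ := h1
    have h3 : l = q := (Nat.prime_dvd_prime_iff_eq hl (hSp q hq)).1 h2
    subst h3
    exact (hS0X l hq).2
  have hfix : ∀ (p : ℕ), p.Prime → (p : ℤ) ∣ 2 * W.Δ → ∀ (hpm : p.Coprime n) (σ : L ≃ₐ[ℚ] L),
      IsCyclotomicExtension.autEquivPow L (cyclotomic.irreducible_rat (NeZero.pos n)) σ =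
        ZMod.unitOfCoprime p hpm → ∀ x ∈ F', σ x = x := by
    intro p hp hpd hpm σ hσ
    refine fixes n L H0 S0 hSp dvd_rfl F' hF'le σ fun c hc hcS => ?_
    have h2 : galEquivZMod n L σ = ZMod.unitOfCoprime p hpm := hσ
    rw [h2, XX_nat c (fun q hq => (dvd_dd hq).trans (dd_dvd (sp_sub S0 hcS).2)) hpm]
    exact hspl c hc p hp hpd
  let ψ : F' →+* F :=
    { toFun := fun x => ⟨φ x.1, x.2⟩
      map_one' := Subtype.ext (map_one φ)
      map_mul' := fun x y => Subtype.ext (map_mul φ x.1 y.1)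
      map_zero' := Subtype.ext (map_zero φ)
      map_add' := fun x y => Subtype.ext (map_add φ x.1 y.1) }
  have hψ : Function.Bijective ψ := by
    refine ⟨ψ.injective, fun y => ?_⟩
    obtain ⟨x, -, hx⟩ := hadj y.2
    exact ⟨⟨x, by
      show φ x ∈ F
      have : φ x = y := hx
      rw [this]
      exact y.2⟩, Subtype.ext hx⟩
  let e : F' ≃+* F := RingEquiv.ofBijective ψ hψ
  let eA : F' ≃ₐ[ℚ] F := AlgEquiv.ofRingEquiv (f := e) (fun r => by
    simp)
  have hgal' : IsGalois ℚ F' := Pool.Agent.Y702.L.gal_F n L F'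
  have hgal : IsGalois ℚ F := IsGalois.of_algEquiv eA
  have hjF : Module.finrank ℚ F = 2 ^ j := by
    rw [← hj]
    exact eA.toLinearEquiv.finrank_eq.symm
  have hunr' : ∀ (p : ℕ), p.Prime → ¬ p ∣ n → ∀ v : HeightOneSpectrum (𝓞 F'),
      (p : 𝓞 F') ∈ v.asIdeal → v.valuation F' (p : F') = WithZero.exp (-1 : ℤ) :=
    fun p hp hpm v hv => Pool.Agent.Y702.Fn.unr n L F' hp hpm v hv
  have hunr : ∀ (p : ℕ), p.Prime → ¬ p ∣ n → ∀ v : HeightOneSpectrum (𝓞 F),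
      (p : 𝓞 F) ∈ v.asIdeal → v.valuation F (p : F) = WithZero.exp (-1 : ℤ) := by
    intro p hp hpm v hv
    refine Pool.Agent.R425.unr_of_disc F hp ?_ v hv
    rw [← NumberField.discr_eq_discr_of_algEquiv F' eA]
    exact Pool.Agent.R425.not_disc F' hp (fun v hv => hunr' p hp hpm v hv)
  have hdeg := deg_iso e (2 * W.Δ)
    (Pool.Agent.R901.EC.split_of W (fun l hl hlm => (hm l hl hlm).1) L F' hfix)
  have hre : 0 < W.Δ → ∀ v : InfinitePlace F, v.IsReal := by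
    intro hpos
    have h1 : Pool.Agent.Y702.L.cj n L ∈ F'.fixingSubgroup := by
      rw [IntermediateField.mem_fixingSubgroup_iff]
      refine fixes n L H0 S0 hSp dvd_rfl F' hF'le _ fun c hc hcS => ?_
      have h2 : galEquivZMod n L (Pool.Agent.Y702.L.cj n L) = -1 := by
        unfold Pool.Agent.Y702.L.cj
        rw [MulEquiv.apply_symm_apply]
      rw [h2, XX_neg_one c (fun q hq => (dvd_dd hq).trans (dd_dvd (sp_sub S0 hcS).2))]
      exact hpar hpos c hc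
    have h2 : IsTotallyReal F' := ⟨fun w => Pool.Agent.Y702.L.real_of_mem h1 w⟩
    have h3 : IsTotallyReal F := IsTotallyReal.ofRingEquiv e
    exact fun v => h3.isReal v
  exact sel_abs W hΔ hsha hfinQ hcard F j n hjF hm hunr hdeg hre

/-- the short model -/
theorem twk_fin (W : WeierstrassCurve ℤ) (hΔ : W.Δ ≠ 0) (F : Type) [Field F] [NumberField F]
    (h : Finite (base W F).toAffine.Point) : Finite (twk W F 1).toAffine.Point :=
  twk_finite (K := F) (RingHom.id F) (D := 1) (δ := 1) one_ne_zero (by simp) hΔ h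

end Pool.Agent.R425.T
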