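import Pool.Agent.R425.T.Tow
import Pool.Agent.R901.EC.Grp2

/-!
# Quadratic twists of elliptic curves with trivial 2-Selmer group: discriminants of either sign
-/

set_option autoImplicit false
set_option linter.all false

open NumberField IsDedekindDomain Polynomial WeierstrassCurve
open scoped symmDiff

namespace Pool.Agent.R425.T

open Pool.Agent.Y702.G (base pts sh SelTriv)
open Pool.Agent.Y18.BSD (jc Adm RankZero)
open Pool.Agent.R901.EC (ca cb good_iff' odd_pts twk twk_finite finrank_sqrt disc_ne split_of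
  Corr corr_step corr_all)

open scoped Classical

/-- **Twists with the splitting condition have only finitely many rational points.** -/
theorem twist_finite (W : WeierstrassCurve ℤ) (hΔ : W.Δ ≠ 0)
    (hsha : ∀ s : Pool.Agent.TH841.NF.D.Sha (base W ℚ), 2 • s = 0 → s = 0)
    (hfin : Finite (base W ℚ).toAffine.Point) (hcard : Odd (Nat.card (base W ℚ).toAffine.Point))
    (T : Finset ℕ) (hT : ∀ q ∈ T, Adm (ca W) (cb W) q)
    (hs : ∀ p : ℕ, p.Prime → (p : ℤ) ∣ 2 * W.Δ → jacobiSym p (∏ q ∈ T, q) = 1)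
    (hpos : 0 < Pool.Agent.Y18.BSD.disc T) :
    Finite (twk W ℚ (Pool.Agent.Y18.BSD.disc T)).toAffine.Point := by
  have hTp : ∀ q ∈ T, q.Prime ∧ q ≠ 2 := fun q hq =>
    ⟨(good_iff' (hT q hq).1).1, (good_iff' (hT q hq).1).2.2.1⟩
  haveI : NeZero (Pool.Agent.Y18.BSD.dd T) :=
    ⟨Pool.Agent.Y18.BSD.dd_ne_zero fun q hq => (hTp q hq).1⟩
  let M := CyclotomicField (Pool.Agent.Y18.BSD.dd T) ℚ
  have hcyc : IsCyclotomicExtension {Pool.Agent.Y18.BSD.dd T} ℚ M :=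
    CyclotomicField.isCyclotomicExtension (Pool.Agent.Y18.BSD.dd T) ℚ
  obtain ⟨g, hg, -⟩ := Pool.Agent.Y18.NF.gauss_T (Pool.Agent.Y18.BSD.dd T) M hTp
    (fun q hq => Finset.dvd_prod_of_mem _ hq)
  let K : IntermediateField ℚ M := IntermediateField.adjoin ℚ {g}
  obtain ⟨n, hn⟩ := finrank_sqrt g (Pool.Agent.Y18.BSD.disc T) hg
  have hm : ∀ l : ℕ, l.Prime → l ∣ Pool.Agent.Y18.BSD.dd T →
      ¬ (l : ℤ) ∣ 2 * W.Δ ∧ Odd ((l : ℤ) - pts W (ZMod l)) := by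
    intro l hl hlm
    have h1 : ∃ q ∈ T, l ∣ q := (Prime.dvd_finset_prod_iff (Nat.prime_iff.1 hl) _).1 hlm
    obtain ⟨q, hq, h2⟩ := h1
    have h3 : l = q := (Nat.prime_dvd_prime_iff_eq hl (hTp q hq).1).1 h2
    subst h3
    exact odd_pts (hT l hq)
  have hadj : ∀ σ : M ≃ₐ[ℚ] M, σ g = g → K ≤ IntermediateField.fixedField (Subgroup.zpowers σ) := by
    intro σ h1
    show IntermediateField.adjoin ℚ {g} ≤ _
    rw [IntermediateField.adjoin_le_iff, Set.singleton_subset_iff]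
    show g ∈ IntermediateField.fixedField (Subgroup.zpowers σ)
    rw [IntermediateField.mem_fixedField_iff]
    intro τ hτ
    obtain ⟨k, rfl⟩ := Subgroup.mem_zpowers_iff.1 hτ
    have h3 : σ • g = g := h1
    have h4 : σ ^ k ∈ MulAction.stabilizer (M ≃ₐ[ℚ] M) g :=
      Subgroup.zpow_mem _ (MulAction.mem_stabilizer_iff.2 h3) k
    exact MulAction.mem_stabilizer_iff.1 h4
  have hfixg : ∀ σ : M ≃ₐ[ℚ] M, σ g = g → ∀ x ∈ K, σ x = x := by
    intro σ h1 x hx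
    have h3 := hadj σ h1 hx
    rw [IntermediateField.mem_fixedField_iff] at h3
    exact h3 σ (Subgroup.mem_zpowers σ)
  have hfix : ∀ (p : ℕ), p.Prime → (p : ℤ) ∣ 2 * W.Δ →
      ∀ (hpm : p.Coprime (Pool.Agent.Y18.BSD.dd T)) (σ : M ≃ₐ[ℚ] M),
      IsCyclotomicExtension.autEquivPow M
        (cyclotomic.irreducible_rat (NeZero.pos (Pool.Agent.Y18.BSD.dd T))) σ =
        ZMod.unitOfCoprime p hpm → ∀ x ∈ K, σ x = x := by
    intro p hp hpd hpm σ hσ
    apply hfixg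
    refine Pool.Agent.Y18.NF.root_act (Pool.Agent.Y18.BSD.dd T) M hTp
      (fun q hq => Finset.dvd_prod_of_mem _ hq) hg σ ?_
    have h2 : IsCyclotomicExtension.Rat.galEquivZMod (Pool.Agent.Y18.BSD.dd T) M σ =
        ZMod.unitOfCoprime p hpm := hσ
    rw [h2]
    unfold Pool.Agent.Y18.BSD.jc
    rw [ZMod.coe_unitOfCoprime, ZMod.val_natCast]
    rw [Int.natCast_mod, ← jacobiSym.mod_left]
    exact hs p hp hpd
  have hgal : IsGalois ℚ K := Pool.Agent.Y702.L.gal_F (Pool.Agent.Y18.BSD.dd T) M K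
  have hcj : Pool.Agent.Y702.L.cj (Pool.Agent.Y18.BSD.dd T) M ∈ K.fixingSubgroup := by
    rw [IntermediateField.mem_fixingSubgroup_iff]
    apply hfixg
    let φ : M →+* ℂ := (IsAlgClosed.lift : M →ₐ[ℚ] ℂ).toRingHom
    apply φ.injective
    rw [Pool.Agent.Y702.L.cj_spec (Pool.Agent.Y18.BSD.dd T) M φ g]
    have h1 : (φ g) ^ 2 = ((Pool.Agent.Y18.BSD.disc T : ℤ) : ℂ) := by
      rw [← map_pow, hg, map_intCast]
    -- a square root of a positive number is real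
    have h2 : (0 : ℝ) < ((Pool.Agent.Y18.BSD.disc T : ℤ) : ℝ) := by exact_mod_cast hpos
    have h3 : (φ g) ^ 2 = ((Real.sqrt ((Pool.Agent.Y18.BSD.disc T : ℤ) : ℝ) : ℝ) : ℂ) ^ 2 := by
      rw [h1, ← Complex.ofReal_pow, Real.sq_sqrt h2.le]
      push_cast
      rfl
    rcases sq_eq_sq_iff_eq_or_eq_neg.1 h3 with h4 | h4
    · rw [h4, Complex.conj_ofReal]
    · rw [h4, map_neg, Complex.conj_ofReal]
  obtain ⟨-, h1⟩ := sel_abs W hΔ hsha hfin hcard K n (Pool.Agent.Y18.BSD.dd T) hn hm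
    (fun p hp hpm v hv => Pool.Agent.Y702.Fn.unr (Pool.Agent.Y18.BSD.dd T) M K hp hpm v hv)
    (split_of W (fun l hl hlm => (hm l hl hlm).1) M K hfix)
    (fun _ w => Pool.Agent.Y702.L.real_of_mem hcj w)
  have hgK : g ∈ K := IntermediateField.mem_adjoin_simple_self ℚ g
  refine twk_finite (K := K) (algebraMap ℚ K) (δ := ⟨g, hgK⟩) (disc_ne fun q hq => (hTp q hq).1)
    ?_ hΔ h1
  apply Subtype.ext
  show g ^ 2 = ((Pool.Agent.Y18.BSD.disc T : K) : M)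
  rw [hg]
  simp

/-- the sign of the discriminant -/
def sg (T : Finset ℕ) : ℤ := ∏ q ∈ T, (-1) ^ ((q - 1) / 2)

lemma sg_pm (T : Finset ℕ) : sg T = 1 ∨ sg T = -1 := by
  unfold sg
  induction T using Finset.induction_on with
  | empty => left; simp
  | insert q T hq ih =>
    rw [Finset.prod_insert hq]
    rcases neg_one_pow_eq_or ℤ ((q - 1) / 2) with h | h <;> rcases ih with h' | h' <;>
      rw [h, h'] <;> norm_num

lemma sg_symm (S T : Finset ℕ) : sg (S ∆ T) = sg S * sg T := by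
  unfold sg
  have e : S ∆ T = (S \ T) ∪ (T \ S) := rfl
  have hd : Disjoint (S \ T) (T \ S) := by
    rw [Finset.disjoint_left]
    intro q h2 h3
    exact (Finset.mem_sdiff.1 h3).2 (Finset.mem_sdiff.1 h2).1
  rw [e, Finset.prod_union hd]
  rw [← Finset.prod_sdiff (Finset.inter_subset_left (s₁ := S) (s₂ := T)),
    ← Finset.prod_sdiff (Finset.inter_subset_right (s₁ := S) (s₂ := T))]
  rw [Finset.sdiff_inter_self_left, Finset.inter_comm S T, Finset.sdiff_inter_self_left]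
  have hsq : (∏ q ∈ T ∩ S, (-1 : ℤ) ^ ((q - 1) / 2)) * ∏ q ∈ T ∩ S, (-1 : ℤ) ^ ((q - 1) / 2) = 1 := by
    rw [← Finset.prod_mul_distrib]
    refine Finset.prod_eq_one fun q hq => ?_
    rcases neg_one_pow_eq_or ℤ ((q - 1) / 2) with h | h <;> rw [h] <;> norm_num
  linear_combination (-(∏ q ∈ S \ T, (-1 : ℤ) ^ ((q - 1) / 2)) *
    (∏ q ∈ T \ S, (-1 : ℤ) ^ ((q - 1) / 2))) * hsq

lemma disc_pos {T : Finset ℕ} (hT : ∀ q ∈ T, q.Prime) (h : sg T = 1) :
    0 < Pool.Agent.Y18.BSD.disc T := by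
  have h1 : Pool.Agent.Y18.BSD.disc T = sg T * ∏ q ∈ T, (q : ℤ) := by
    unfold Pool.Agent.Y18.BSD.disc sg
    rw [← Finset.prod_mul_distrib]
  rw [h1, h, one_mul]
  exact Finset.prod_pos fun q hq => by exact_mod_cast (hT q hq).pos

/-- finitely many quadratic conditions and the sign -/
lemma corr_sg (Z : Finset ℕ) (hZ : ∀ p ∈ Z, p.Prime) {V : ℕ} {P : Finset ℕ → Prop}
    {H : Set (Finset ℕ)} (h0 : ∅ ∈ H) (hH : ∀ S ∈ H, ∀ T ∈ H, S ∆ T ∈ H)
    (hp : ∀ T ∈ H, ∀ q ∈ T, q.Prime ∧ q ∉ Z)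
    (hc : Corr V {T | (T ∈ H ∧ sg T = 1) ∧ ∀ p ∈ Z, jacobiSym p (∏ q ∈ T, q) = 1} P) :
    Corr (V + Z.card + 1) H P := by
  refine corr_step hH sg (fun T _ => sg_pm T) (fun S _ T _ => sg_symm S T) ?_
  refine corr_all Z hZ (H := {T | T ∈ H ∧ sg T = 1}) ⟨h0, by simp [sg]⟩ ?_ ?_ hc
  · rintro S ⟨hS, hS1⟩ T ⟨hT, hT1⟩
    refine ⟨hH S hS T hT, ?_⟩
    rw [sg_symm, hS1, hT1, mul_one]
  · rintro T ⟨hT, -⟩ q hq
    exact hp T hT q hq

end Pool.Agent.R425.T
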